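import Mathlib

/-! The lightning model on the square lattice. -/

namespace Pool.Agent.MP_57c4af_pr

/-- The directed edge `(a, b)` between nearest neighbours is open: `U b < U a + ε`. -/
def OpenEdge (ε : ℝ) (U : ℤ × ℤ → unitInterval) (a b : ℤ × ℤ) : Prop :=
  (b = a + (1, 0) ∨ b = a - (1, 0) ∨ b = a + (0, 1) ∨ b = a - (0, 1)) ∧ (U b : ℝ) < U a + ε

/-- `a → b`: there is a path of distinct vertices `a = p 0, …, p n = b` along open edges. -/
def Leads (ε : ℝ) (U : ℤ × ℤ → unitInterval) (a b : ℤ × ℤ) : Prop :=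
  ∃ (n : ℕ) (p : ℕ → ℤ × ℤ), p 0 = a ∧ p n = b ∧ (∀ i ≤ n, ∀ j ≤ n, p i = p j → i = j) ∧
    ∀ i < n, OpenEdge ε U (p i) (p (i + 1))

/-- The law of the potentials: Lebesgue product measure on `[0,1]^(ℤ²)`. -/
noncomputable def law : MeasureTheory.Measure (ℤ × ℤ → unitInterval) :=
  MeasureTheory.Measure.infinitePi fun _ => MeasureTheory.volume

end Pool.Agent.MP_57c4af_pr
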